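import Mathlib

/-!
Choosability with lists of four colours, and critical sets.
-/

set_option autoImplicit false

open Finset

namespace Pool.Agent.NSep

/-- `G[S]` is colourable from all lists with at least four colours. -/
def Choos {V : Type} (G : SimpleGraph V) (S : Finset V) : Prop :=
  ∀ L : V → Finset ℕ, (∀ v, 4 ≤ (L v).card) →
    ∃ c : V → ℕ, (∀ v, c v ∈ L v) ∧ ∀ u ∈ S, ∀ v ∈ S, G.Adj u v → c u ≠ c v

/-- critical: not choosable, all proper subsets are -/
def CritL {V : Type} (G : SimpleGraph V) (S : Finset V) : Prop :=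
  ¬ Choos G S ∧ ∀ S' : Finset V, S' ⊂ S → Choos G S'

/-- Residual lists on a nonempty part `C` of a critical set: large, but without a colouring. -/
theorem CritL.resid {V : Type} [Fintype V] [DecidableEq V] {G : SimpleGraph V} {S : Finset V}
    (h : CritL G S) (C : Finset V) (hC : C.Nonempty) (hCS : C ⊆ S) :
    ∃ R : V → Finset ℕ,
      (∀ v, 4 ≤ (R v).card + (G.neighborSet v ∩ ((S \ C : Finset V) : Set V)).ncard) ∧
      ¬ ∃ c : V → ℕ, (∀ v ∈ C, c v ∈ R v) ∧ ∀ u ∈ C, ∀ v ∈ C, G.Adj u v → c u ≠ c v := by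
  classical
  obtain ⟨h1, h2⟩ := h
  unfold Choos at h1
  push Not at h1
  obtain ⟨L, hL, hno⟩ := h1
  have hss : S \ C ⊂ S := by
    refine ⟨Finset.sdiff_subset, ?_⟩
    intro hsub
    obtain ⟨x, hx⟩ := hC
    exact (Finset.mem_sdiff.1 (hsub (hCS hx))).2 hx
  obtain ⟨c0, hc0, hprop⟩ := h2 _ hss L hL
  refine ⟨fun v => L v \ ((S \ C).filter (fun u => G.Adj v u)).image c0, ?_, ?_⟩
  · intro v
    have e1 : (G.neighborSet v ∩ ((S \ C : Finset V) : Set V)) =
        (((S \ C).filter (fun u => G.Adj v u) : Finset V) : Set V) := by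
      ext u
      simp only [Set.mem_inter_iff, SimpleGraph.mem_neighborSet, Finset.mem_coe,
        Finset.mem_filter]
      tauto
    rw [e1, Set.ncard_coe_finset]
    have e2 := Finset.card_image_le (s := (S \ C).filter (fun u => G.Adj v u)) (f := c0)
    have e3 := Finset.le_card_sdiff (((S \ C).filter (fun u => G.Adj v u)).image c0) (L v)
    have e4 := hL v
    beta_reduce
    omega
  · rintro ⟨c, hc, hcp⟩
    obtain ⟨u, hu, v, hv, huv, heq⟩ := hno (fun v => if v ∈ C then c v else c0 v) (by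
      intro v
      by_cases hv : v ∈ C
      · rw [if_pos hv]
        exact (Finset.mem_sdiff.1 (hc v hv)).1
      · rw [if_neg hv]
        exact hc0 v)
    have hout : ∀ x y, x ∈ C → y ∈ S → y ∉ C → G.Adj x y → c x ≠ c0 y := by
      intro x y hx hy hyC hxy he
      have h5 := (Finset.mem_sdiff.1 (hc x hx)).2
      apply h5
      rw [Finset.mem_image]
      exact ⟨y, Finset.mem_filter.2 ⟨Finset.mem_sdiff.2 ⟨hy, hyC⟩, hxy⟩, he.symm⟩
    by_cases huC : u ∈ C
    · by_cases hvC : v ∈ C
      · simp only [if_pos huC, if_pos hvC] at heq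
        exact hcp u huC v hvC huv heq
      · simp only [if_pos huC, if_neg hvC] at heq
        exact hout u v huC hv hvC huv heq
    · by_cases hvC : v ∈ C
      · simp only [if_neg huC, if_pos hvC] at heq
        exact hout v u hvC hu huC huv.symm heq.symm
      · simp only [if_neg huC, if_neg hvC] at heq
        exact hprop u (Finset.mem_sdiff.2 ⟨hu, huC⟩) v (Finset.mem_sdiff.2 ⟨hv, hvC⟩) huv heq

theorem CritL.deg {V : Type} [Fintype V] [DecidableEq V] {G : SimpleGraph V} {S : Finset V}
    (h : CritL G S) {v : V} (hv : v ∈ S) : 4 ≤ (G.neighborSet v ∩ (S : Set V)).ncard := by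
  obtain ⟨R, hR, hno⟩ := h.resid {v} (Finset.singleton_nonempty v)
    (Finset.singleton_subset_iff.2 hv)
  have h1 : (R v) = ∅ := by
    by_contra hne
    obtain ⟨a, ha⟩ := Finset.nonempty_iff_ne_empty.2 hne
    apply hno
    refine ⟨fun _ => a, ?_, ?_⟩
    · intro u hu
      rw [Finset.mem_singleton] at hu
      rw [hu]
      exact ha
    · intro u hu w hw huw
      rw [Finset.mem_singleton] at hu hw
      rw [hu, hw] at huw
      exact absurd rfl huw.ne
  have h2 := hR v
  rw [h1, Finset.card_empty, zero_add] at h2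
  refine h2.trans (Set.ncard_le_ncard ?_ (Set.toFinite _))
  rintro u ⟨h3, h4⟩
  exact ⟨h3, (Finset.mem_sdiff.1 h4).1⟩

end Pool.Agent.NSep
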