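import Pool.Agent.NSep.Sup
import Pool.Agent.NSepL.Def

/-!
Critical sets for list colouring are connected; a maximal family of disjoint critical sets.
-/

set_option autoImplicit false
set_option linter.unusedSectionVars false

open Finset

namespace Pool.Agent.NSep

/-- a critical set is connected -/
theorem CritL.reach {V : Type} [Fintype V] [DecidableEq V] {G : SimpleGraph V} {S : Finset V}
    (h : CritL G S) : ∀ u ∈ S, ∀ v ∈ S, (sub G S).Reachable u v := by
  classical
  intro u hu v hv
  by_contra hno
  set A : Finset V := S.filter fun x => (sub G S).Reachable u x with hA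
  set B : Finset V := S.filter fun x => ¬ (sub G S).Reachable u x with hB
  have hAS : A ⊂ S := by
    refine (Finset.filter_subset _ _).ssubset_of_mem_notMem hv ?_
    intro hvA
    exact hno (Finset.mem_filter.1 hvA).2
  have hBS : B ⊂ S := by
    refine (Finset.filter_subset _ _).ssubset_of_mem_notMem hu ?_
    intro huB
    exact (Finset.mem_filter.1 huB).2 (SimpleGraph.Reachable.refl u)
  apply h.1
  intro L hL
  obtain ⟨cA, hcA, hpA⟩ := h.2 A hAS L hL
  obtain ⟨cB, hcB, hpB⟩ := h.2 B hBS L hL
  refine ⟨fun x => if (sub G S).Reachable u x then cA x else cB x, ?_, ?_⟩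
  · intro x
    by_cases hx : (sub G S).Reachable u x
    · simp only [if_pos hx]; exact hcA x
    · simp only [if_neg hx]; exact hcB x
  · intro x hxS y hyS hG
    have hsub : (sub G S).Adj x y := ⟨hG, hxS, hyS⟩
    by_cases hrx : (sub G S).Reachable u x
    · have hry : (sub G S).Reachable u y := hrx.trans hsub.reachable
      simp only [if_pos hrx, if_pos hry]
      exact hpA x (Finset.mem_filter.2 ⟨hxS, hrx⟩) y (Finset.mem_filter.2 ⟨hyS, hry⟩) hG
    · have hry : ¬ (sub G S).Reachable u y := fun h1 => hrx (h1.trans hsub.symm.reachable)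
      simp only [if_neg hrx, if_neg hry]
      exact hpB x (Finset.mem_filter.2 ⟨hxS, hrx⟩) y (Finset.mem_filter.2 ⟨hyS, hry⟩) hG

/-- a set which is not choosable contains a critical set -/
theorem exists_critL {V : Type} [Fintype V] [DecidableEq V] (G : SimpleGraph V) (W : Finset V)
    (h : ¬ Choos G W) : ∃ S ⊆ W, CritL G S := by
  classical
  obtain ⟨S, hSW, hS⟩ := exists_minimal_le_of_wellFoundedLT
    (fun S : Finset V => ¬ Choos G S) W h
  refine ⟨S, hSW, hS.prop, ?_⟩
  intro S' hS'
  by_contra hno
  exact hS.not_lt hno hS'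

theorem familyL {V : Type} [Fintype V] [DecidableEq V] (G : SimpleGraph V) (N : ℕ)
    (h : ∀ Q : Finset (Finset V), (∀ S ∈ Q, CritL G S) →
      (∀ S ∈ Q, ∀ S' ∈ Q, S ≠ S' → Disjoint S S') → ∑ S ∈ Q, S.card ≤ N) :
    ∃ X : Finset V, X.card ≤ N ∧ Choos G (Finset.univ \ X) := by
  classical
  let good : Finset (Finset (Finset V)) := Finset.univ.filter fun Q =>
    (∀ S ∈ Q, CritL G S) ∧ (∀ S ∈ Q, ∀ S' ∈ Q, S ≠ S' → Disjoint S S')
  have hne : good.Nonempty := ⟨∅, by simp [good]⟩
  obtain ⟨Q, hQ, hmax⟩ := Finset.exists_max_image good Finset.card hne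
  obtain ⟨-, hQ1, hQ2⟩ := Finset.mem_filter.1 hQ
  refine ⟨Q.biUnion id, ?_, ?_⟩
  · refine Finset.card_biUnion_le.trans ?_
    simpa using h Q hQ1 hQ2
  · by_contra hno
    set W : Finset V := Finset.univ \ Q.biUnion id with hW
    obtain ⟨S, hSW, hS⟩ := exists_critL G W hno
    have hSne : S.Nonempty := by
      rw [Finset.nonempty_iff_ne_empty]
      rintro rfl
      apply hS.1
      intro L hL
      have h1 : ∀ v, ∃ a, a ∈ L v := fun v => Finset.card_pos.1 (by have := hL v; omega)
      choose c hc using h1
      exact ⟨c, hc, fun u hu => absurd hu (Finset.notMem_empty _)⟩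
    have hdis : ∀ T ∈ Q, Disjoint S T := by
      intro T hT
      rw [Finset.disjoint_left]
      intro x hxS hxT
      have := hSW hxS
      rw [hW, Finset.mem_sdiff, Finset.mem_biUnion] at this
      exact this.2 ⟨T, hT, hxT⟩
    have hSQ : S ∉ Q := by
      intro hSQ
      obtain ⟨x, hx⟩ := hSne
      exact Finset.disjoint_left.1 (hdis S hSQ) hx hx
    have hins : insert S Q ∈ good := by
      refine Finset.mem_filter.2 ⟨Finset.mem_univ _, ?_, ?_⟩
      · intro T hT
        rcases Finset.mem_insert.1 hT with hT1 | hT1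
        · rw [hT1]; exact hS
        · exact hQ1 T hT1
      · intro T hT T' hT' hne'
        rcases Finset.mem_insert.1 hT with hT1 | hT1
        · rcases Finset.mem_insert.1 hT' with hT2 | hT2
          · exact absurd (hT1.trans hT2.symm) hne'
          · rw [hT1]; exact hdis T' hT2
        · rcases Finset.mem_insert.1 hT' with hT2 | hT2
          · rw [hT2]; exact (hdis T hT1).symm
          · exact hQ2 T hT1 T' hT2 hne'
    have h1 := hmax _ hins
    rw [Finset.card_insert_of_notMem hSQ] at h1
    omega

end Pool.Agent.NSep
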