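import Pool.Agent.NSepL.Def

/-!
A vertex of degree four of a critical set (for lists) all of whose neighbours have degree four and
lie in a triangle of neighbours: the critical set has five vertices.
-/

set_option autoImplicit false
set_option linter.unusedSectionVars false

open Finset

namespace Pool.Agent.NSep

/-- `K_5` minus an edge is colourable from lists of sizes `4, 4, 4, 3, 3`. -/
theorem five_lists (Rv Rp Rq Rx Ry : Finset ℕ) (hv : 4 ≤ Rv.card) (hp : 3 ≤ Rp.card)
    (hq : 3 ≤ Rq.card) (hx : 4 ≤ Rx.card) (hy : 4 ≤ Ry.card) :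
    ∃ a ∈ Rv, ∃ b ∈ Rp, ∃ c ∈ Rq, ∃ d ∈ Rx, ∃ e ∈ Ry, a ≠ b ∧ a ≠ c ∧ a ≠ d ∧ a ≠ e ∧ b ≠ d ∧
      b ≠ e ∧ c ≠ d ∧ c ≠ e ∧ d ≠ e := by
  classical
  obtain ⟨Rv', hRv, hRv4⟩ := Finset.exists_subset_card_eq hv
  -- one of the two gets a colour outside the list of `v`
  have key : ∀ Rp Rq : Finset ℕ, 3 ≤ Rq.card → (∃ b ∈ Rp, b ∉ Rv') →
      ∃ a ∈ Rv, ∃ b ∈ Rp, ∃ c ∈ Rq, ∃ d ∈ Rx, ∃ e ∈ Ry, a ≠ b ∧ a ≠ c ∧ a ≠ d ∧ a ≠ e ∧ b ≠ d ∧
      b ≠ e ∧ c ≠ d ∧ c ≠ e ∧ d ≠ e := by
    intro Rp Rq hq ⟨b, hb, hbv⟩
    obtain ⟨c, hc⟩ := Finset.card_pos.1 (by omega : 0 < Rq.card)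
    have c2 : ({b, c} : Finset ℕ).card ≤ 2 := Finset.card_le_two
    obtain ⟨d, hd, hdn⟩ := Finset.exists_mem_notMem_of_card_lt_card
      (by omega : ({b, c} : Finset ℕ).card < Rx.card)
    have c3 : ({b, c, d} : Finset ℕ).card ≤ 3 := Finset.card_le_three
    obtain ⟨e, he, hen⟩ := Finset.exists_mem_notMem_of_card_lt_card
      (by omega : ({b, c, d} : Finset ℕ).card < Ry.card)
    have c4 : ({c, d, e} : Finset ℕ).card ≤ 3 := Finset.card_le_three
    obtain ⟨a, ha, han⟩ := Finset.exists_mem_notMem_of_card_lt_card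
      (by omega : ({c, d, e} : Finset ℕ).card < Rv'.card)
    simp only [Finset.mem_insert, Finset.mem_singleton, not_or] at hdn hen han
    refine ⟨a, hRv ha, b, hb, c, hc, d, hd, e, he, ?_, han.1, han.2.1, han.2.2,
      Ne.symm hdn.1, Ne.symm hen.1, Ne.symm hdn.2, Ne.symm hen.2.1, Ne.symm hen.2.2⟩
    rintro rfl
    exact hbv ha
  by_cases hdis : Disjoint Rp Rq
  · have h6 : (Rp ∪ Rq).card = Rp.card + Rq.card := Finset.card_union_of_disjoint hdis
    obtain ⟨b, hb, hbv⟩ := Finset.exists_mem_notMem_of_card_lt_card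
      (by omega : Rv'.card < (Rp ∪ Rq).card)
    rcases Finset.mem_union.1 hb with hb | hb
    · exact key Rp Rq hq ⟨b, hb, hbv⟩
    · obtain ⟨a, ha, c, hc, b', hb', d, hd, e, he, h1, h2, h3, h4, h5, h6', h7, h8, h9⟩ :=
        key Rq Rp hp ⟨b, hb, hbv⟩
      exact ⟨a, ha, b', hb', c, hc, d, hd, e, he, h2, h1, h3, h4, h7, h8, h5, h6', h9⟩
  · rw [Finset.not_disjoint_iff] at hdis
    obtain ⟨b, hb, hb'⟩ := hdis
    obtain ⟨d, hd, hdn⟩ := Finset.exists_mem_notMem_of_card_lt_card
      (by rw [Finset.card_singleton]; omega : ({b} : Finset ℕ).card < Rx.card)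
    have c2 : ({b, d} : Finset ℕ).card ≤ 2 := Finset.card_le_two
    obtain ⟨e, he, hen⟩ := Finset.exists_mem_notMem_of_card_lt_card
      (by omega : ({b, d} : Finset ℕ).card < Ry.card)
    have c3 : ({b, d, e} : Finset ℕ).card ≤ 3 := Finset.card_le_three
    obtain ⟨a, ha, han⟩ := Finset.exists_mem_notMem_of_card_lt_card
      (by omega : ({b, d, e} : Finset ℕ).card < Rv.card)
    simp only [Finset.mem_insert, Finset.mem_singleton, not_or] at hdn hen han
    exact ⟨a, ha, b, hb, b, hb', d, hd, e, he, han.1, han.1, han.2.1, han.2.2,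
      Ne.symm hdn, Ne.symm hen.1, Ne.symm hdn, Ne.symm hen.1, Ne.symm hen.2⟩

theorem CritL.five {V : Type} [Fintype V] [DecidableEq V] {G : SimpleGraph V} {S : Finset V}
    (h : CritL G S)
    {v : V} (hv : v ∈ S) (hv4 : (G.neighborSet v ∩ (S : Set V)).ncard = 4)
    (hN : ∀ w ∈ S, G.Adj v w → (G.neighborSet w ∩ (S : Set V)).ncard = 4 ∧
      ∃ x ∈ S, ∃ y ∈ S, G.Adj v x ∧ G.Adj v y ∧ G.Adj w x ∧ G.Adj w y ∧ G.Adj x y) :
    S.card = 5 := by
  classical
  have hDT : ∀ (T : Finset V) (w : V), (G.neighborSet w ∩ (T : Set V)).ncard =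
      (T.filter fun u => G.Adj w u).card := by
    intro T w
    have h3 : (G.neighborSet w ∩ (T : Set V)) =
        ((T.filter (fun u => G.Adj w u) : Finset V) : Set V) := by
      ext u
      simp [and_comm]
    rw [h3, Set.ncard_coe_finset]
  simp only [hDT S] at hv4 hN
  by_cases hall : ∀ p ∈ S, ∀ q ∈ S, G.Adj v p → G.Adj v q → p ≠ q → G.Adj p q
  · -- a complete graph on five vertices
    set N : Finset V := insert v (S.filter fun u => G.Adj v u) with hNdef
    have hNc : N.card = 5 := by
      rw [hNdef, Finset.card_insert_of_notMem (by simp), hv4]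
    have hNS : N ⊆ S := by
      intro u hu
      rcases Finset.mem_insert.1 hu with rfl | hu
      · exact hv
      · exact (Finset.mem_filter.1 hu).1
    rcases hNS.eq_or_ssubset with heq | hss
    · rw [← heq, hNc]
    · exfalso
      obtain ⟨c, hcL, hc⟩ := h.2 N hss (fun _ => Finset.range 4) (fun _ => by simp)
      have hinj : Set.InjOn c (N : Set V) := by
        intro p hp q hq hpq
        by_contra hne
        refine hc p hp q hq ?_ hpq
        rcases Finset.mem_insert.1 (Finset.mem_coe.1 hp) with rfl | hp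
        · rcases Finset.mem_insert.1 (Finset.mem_coe.1 hq) with rfl | hq
          · exact absurd rfl hne
          · exact (Finset.mem_filter.1 hq).2
        · rcases Finset.mem_insert.1 (Finset.mem_coe.1 hq) with rfl | hq
          · exact (Finset.mem_filter.1 hp).2.symm
          · exact hall p (Finset.mem_filter.1 hp).1 q (Finset.mem_filter.1 hq).1
              (Finset.mem_filter.1 hp).2 (Finset.mem_filter.1 hq).2 hne
      have h5 := Finset.card_image_of_injOn hinj
      have h6 : (N.image c).card ≤ (Finset.range 4).card := by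
        refine Finset.card_le_card ?_
        intro z hz
        obtain ⟨u, -, rfl⟩ := Finset.mem_image.1 hz
        exact hcL u
      rw [Finset.card_range] at h6
      omega
  · exfalso
    push Not at hall
    obtain ⟨p, hp, q, hq, hvp, hvq, hpq, hnpq⟩ := hall
    obtain ⟨hp4, x, hx, y, hy, hvx, hvy, hpx, hpy, hxy⟩ := hN p hp hvp
    obtain ⟨hq4, x', hx', y', hy', hvx', hvy', hqx', hqy', hxy'⟩ := hN q hq hvq
    have hxp : x ≠ p := fun e => G.irrefl (e ▸ hpx)
    have hyp : y ≠ p := fun e => G.irrefl (e ▸ hpy)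
    have hxq : x ≠ q := fun e => hnpq (e ▸ hpx)
    have hyq : y ≠ q := fun e => hnpq (e ▸ hpy)
    have hxney : x ≠ y := hxy.ne
    have hvN : (S.filter fun u => G.Adj v u) = {p, q, x, y} := by
      symm
      apply Finset.eq_of_subset_of_card_le
      · intro u hu
        simp only [Finset.mem_insert, Finset.mem_singleton] at hu
        rcases hu with rfl | rfl | rfl | rfl <;> simp [*]
      · rw [hv4, Finset.card_insert_of_notMem (by simp [hpq, hxp.symm, hyp.symm]),
          Finset.card_insert_of_notMem (by simp [hxq.symm, hyq.symm]),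
          Finset.card_insert_of_notMem (by simp [hxney]), Finset.card_singleton]
    have hvN' : ∀ w ∈ S, G.Adj v w → w = p ∨ w = q ∨ w = x ∨ w = y := by
      intro w hw hvw
      have : w ∈ (S.filter fun u => G.Adj v u) := Finset.mem_filter.2 ⟨hw, hvw⟩
      rw [hvN] at this
      simpa using this
    -- q is adjacent to x and y
    have hqN : G.Adj q x ∧ G.Adj q y := by
      have hx1 := hvN' x' hx' hvx'
      have hy1 := hvN' y' hy' hvy'
      have e1 : x' ≠ p := fun e => hnpq ((e ▸ hqx').symm)
      have e2 : x' ≠ q := fun e => G.irrefl (e ▸ hqx')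
      have e3 : y' ≠ p := fun e => hnpq ((e ▸ hqy').symm)
      have e4 : y' ≠ q := fun e => G.irrefl (e ▸ hqy')
      have e5 : x' ≠ y' := hxy'.ne
      rcases hx1 with e | e | e | e
      · exact absurd e e1
      · exact absurd e e2
      · rcases hy1 with f | f | f | f
        · exact absurd f e3
        · exact absurd f e4
        · exact absurd (e.trans f.symm) e5
        · exact ⟨e ▸ hqx', f ▸ hqy'⟩
      · rcases hy1 with f | f | f | f
        · exact absurd f e3
        · exact absurd f e4
        · exact ⟨f ▸ hqy', e ▸ hqx'⟩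
        · exact absurd (e.trans f.symm) e5
    obtain ⟨hqx, hqy⟩ := hqN
    have hxN' : ∀ w ∈ S, G.Adj x w → w = v ∨ w = p ∨ w = q ∨ w = y := by
      have hx4 := (hN x hx hvx).1
      have : (S.filter fun u => G.Adj x u) = {v, p, q, y} := by
        symm
        apply Finset.eq_of_subset_of_card_le
        · intro u hu
          simp only [Finset.mem_insert, Finset.mem_singleton] at hu
          rcases hu with rfl | rfl | rfl | rfl
          · exact Finset.mem_filter.2 ⟨hv, hvx.symm⟩
          · exact Finset.mem_filter.2 ⟨hp, hpx.symm⟩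
          · exact Finset.mem_filter.2 ⟨hq, hqx.symm⟩
          · exact Finset.mem_filter.2 ⟨hy, hxy⟩
        · rw [hx4, Finset.card_insert_of_notMem
              (by simp [hvp.ne, hvq.ne, hvy.ne]),
            Finset.card_insert_of_notMem (by simp [hpq, hyp.symm]),
            Finset.card_insert_of_notMem (by simp [hyq.symm]), Finset.card_singleton]
      intro w hw hvw
      have h1 : w ∈ (S.filter fun u => G.Adj x u) := Finset.mem_filter.2 ⟨hw, hvw⟩
      rw [this] at h1
      simpa using h1
    have hyN' : ∀ w ∈ S, G.Adj y w → w = v ∨ w = p ∨ w = q ∨ w = x := by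
      have hy4 := (hN y hy hvy).1
      have : (S.filter fun u => G.Adj y u) = {v, p, q, x} := by
        symm
        apply Finset.eq_of_subset_of_card_le
        · intro u hu
          simp only [Finset.mem_insert, Finset.mem_singleton] at hu
          rcases hu with rfl | rfl | rfl | rfl
          · exact Finset.mem_filter.2 ⟨hv, hvy.symm⟩
          · exact Finset.mem_filter.2 ⟨hp, hpy.symm⟩
          · exact Finset.mem_filter.2 ⟨hq, hqy.symm⟩
          · exact Finset.mem_filter.2 ⟨hx, hxy.symm⟩
        · rw [hy4, Finset.card_insert_of_notMem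
              (by simp [hvp.ne, hvq.ne, hvx.ne]),
            Finset.card_insert_of_notMem (by simp [hpq, hxp.symm]),
            Finset.card_insert_of_notMem (by simp [hxq.symm]), Finset.card_singleton]
      intro w hw hvw
      have h1 : w ∈ (S.filter fun u => G.Adj y u) := Finset.mem_filter.2 ⟨hw, hvw⟩
      rw [this] at h1
      simpa using h1
    -- residual lists
    set C : Finset V := {v, p, q, x, y} with hC
    have hCS : C ⊆ S := by
      intro u hu
      simp only [hC, Finset.mem_insert, Finset.mem_singleton] at hu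
      rcases hu with rfl | rfl | rfl | rfl | rfl <;> assumption
    obtain ⟨R, hR, hno⟩ := h.resid C ⟨v, by simp [hC]⟩ hCS
    simp only [hDT (S \ C)] at hR
    have hzero : ∀ w, (∀ u ∈ S, G.Adj w u → u ∈ C) → 4 ≤ (R w).card := by
      intro w hw
      have h1 := hR w
      have h2 : ((S \ C).filter fun u => G.Adj w u) = ∅ := by
        rw [Finset.filter_eq_empty_iff]
        intro u hu huw
        exact (Finset.mem_sdiff.1 hu).2 (hw u (Finset.mem_sdiff.1 hu).1 huw)
      rw [h2, Finset.card_empty] at h1
      omega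
    have hRv := hzero v (fun u hu huw => by
      rcases hvN' u hu huw with e | e | e | e <;> simp [hC, e])
    have hRx := hzero x (fun u hu huw => by
      rcases hxN' u hu huw with e | e | e | e <;> simp [hC, e])
    have hRy := hzero y (fun u hu huw => by
      rcases hyN' u hu huw with e | e | e | e <;> simp [hC, e])
    have hone : ∀ w : V, (S.filter fun u => G.Adj w u).card = 4 → G.Adj w v → G.Adj w x →
        G.Adj w y → 3 ≤ (R w).card := by
      intro w hw4 hwv hwx hwy
      have h1 := hR w
      have h2 : ((S \ C).filter fun u => G.Adj w u) ⊆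
          (S.filter fun u => G.Adj w u) \ {v, x, y} := by
        intro u hu
        obtain ⟨h3, h4⟩ := Finset.mem_filter.1 hu
        obtain ⟨h5, h6⟩ := Finset.mem_sdiff.1 h3
        refine Finset.mem_sdiff.2 ⟨Finset.mem_filter.2 ⟨h5, h4⟩, ?_⟩
        intro h7
        apply h6
        simp only [Finset.mem_insert, Finset.mem_singleton] at h7
        rcases h7 with e | e | e <;> simp [hC, e]
      have h3 := Finset.card_le_card h2
      rw [Finset.card_sdiff_of_subset, hw4, Finset.card_insert_of_notMem
              (by simp [hvx.ne, hvy.ne]),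
            Finset.card_insert_of_notMem (by simp [hxney]), Finset.card_singleton] at h3
      · omega
      intro u hu
      simp only [Finset.mem_insert, Finset.mem_singleton] at hu
      rcases hu with rfl | rfl | rfl
      · exact Finset.mem_filter.2 ⟨hv, hwv⟩
      · exact Finset.mem_filter.2 ⟨hx, hwx⟩
      · exact Finset.mem_filter.2 ⟨hy, hwy⟩
    have hRp := hone p hp4 hvp.symm hpx hpy
    have hRq := hone q hq4 hvq.symm hqx hqy
    obtain ⟨a, ha, b, hb, c, hc, d, hd, e, he, i1, i2, i3, i4, i5, i6, i7, i8, i9⟩ :=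
      five_lists (R v) (R p) (R q) (R x) (R y) hRv hRp hRq hRx hRy
    apply hno
    let c' : V → ℕ := fun u => if u = p then b else if u = q then c else if u = v then a
      else if u = x then d else e
    have cp : c' p = b := by simp [c']
    have cq : c' q = c := by simp [c', hpq.symm]
    have cv : c' v = a := by simp [c', hvp.ne, hvq.ne]
    have cx : c' x = d := by simp [c', hxp, hxq, hvx.ne']
    have cy : c' y = e := by simp [c', hyp, hyq, hvy.ne', hxney.symm]
    refine ⟨c', ?_, ?_⟩
    · intro u hu
      simp only [hC, Finset.mem_insert, Finset.mem_singleton] at hu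
      rcases hu with f | f | f | f | f
      · rw [f, cv]; exact ha
      · rw [f, cp]; exact hb
      · rw [f, cq]; exact hc
      · rw [f, cx]; exact hd
      · rw [f, cy]; exact he
    · intro u hu w hw huw
      simp only [hC, Finset.mem_insert, Finset.mem_singleton] at hu hw
      rcases hu with f | f | f | f | f <;> rcases hw with g | g | g | g | g <;>
        rw [f, g] at huw ⊢ <;> simp only [cv, cp, cq, cx, cy] <;>
        first
        | exact absurd huw G.irrefl
        | exact absurd huw hnpq
        | exact absurd huw.symm hnpq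
        | assumption
        | (apply Ne.symm; assumption)

end Pool.Agent.NSep
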