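import Pool.Agent.NSepL.Def

/-!
4-cycles of vertices of degree four in list-critical sets span a K_4.
-/

set_option autoImplicit false
set_option linter.unusedSectionVars false

open Finset

namespace Pool.Agent.NSep

lemma pick {A : Finset ℕ} {B : Finset ℕ} (h : B.card < A.card) : ∃ a ∈ A, a ∉ B :=
  Finset.exists_mem_notMem_of_card_lt_card h

/-- lists on a 4-cycle, possibly with the chord `a c` -/
lemma lists4 (A B C D : Finset ℕ) (p : Prop) (hA : 2 ≤ A.card) (hB : 2 ≤ B.card)
    (hC : 2 ≤ C.card) (hD : 2 ≤ D.card) (hp : p → 3 ≤ A.card ∧ 3 ≤ C.card) :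
    ∃ α ∈ A, ∃ β ∈ B, ∃ γ ∈ C, ∃ δ ∈ D, α ≠ β ∧ β ≠ γ ∧ γ ≠ δ ∧ δ ≠ α ∧ (p → α ≠ γ) := by
  classical
  by_cases hBD : (B ∩ D).Nonempty
  · obtain ⟨x, hx⟩ := hBD
    rw [Finset.mem_inter] at hx
    by_cases hpp : p
    · obtain ⟨h1, h2⟩ := hp hpp
      obtain ⟨γ, hγ, hγx⟩ := pick (A := C) (B := {x}) (by rw [Finset.card_singleton]; omega)
      obtain ⟨α, hα, hαx⟩ := pick (A := A) (B := {x, γ})
        (lt_of_le_of_lt Finset.card_le_two (by omega))
      simp only [Finset.mem_insert, Finset.mem_singleton, not_or] at hγx hαx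
      exact ⟨α, hα, x, hx.1, γ, hγ, x, hx.2, hαx.1, Ne.symm hγx, hγx, Ne.symm hαx.1,
        fun _ => hαx.2⟩
    · obtain ⟨γ, hγ, hγx⟩ := pick (A := C) (B := {x}) (by rw [Finset.card_singleton]; omega)
      obtain ⟨α, hα, hαx⟩ := pick (A := A) (B := {x}) (by rw [Finset.card_singleton]; omega)
      simp only [Finset.mem_singleton] at hγx hαx
      exact ⟨α, hα, x, hx.1, γ, hγ, x, hx.2, hαx, Ne.symm hγx, hγx, Ne.symm hαx,
        fun h => absurd h hpp⟩
  · have hdis : Disjoint B D := by
      rw [Finset.disjoint_iff_inter_eq_empty]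
      exact Finset.not_nonempty_iff_eq_empty.1 hBD
    have hcard : (B ∪ D).card = B.card + D.card := Finset.card_union_of_disjoint hdis
    -- a sublist of A of exact size
    by_cases hpp : p
    · obtain ⟨h1, h2⟩ := hp hpp
      obtain ⟨A', hA', hA'c⟩ := Finset.exists_subset_card_eq h1
      obtain ⟨x, hx, hxA⟩ := pick (A := B ∪ D) (B := A') (by omega)
      rw [Finset.mem_union] at hx
      rcases hx with hx | hx
      · obtain ⟨δ, hδ, _⟩ := pick (A := D) (B := ∅) (by rw [Finset.card_empty]; omega)
        obtain ⟨γ, hγ, hγx⟩ := pick (A := C) (B := {x, δ})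
          (lt_of_le_of_lt Finset.card_le_two (by omega))
        obtain ⟨α, hα, hαx⟩ := pick (A := A') (B := {γ, δ})
          (lt_of_le_of_lt Finset.card_le_two (by omega))
        simp only [Finset.mem_insert, Finset.mem_singleton, not_or] at hγx hαx
        refine ⟨α, hA' hα, x, hx, γ, hγ, δ, hδ, ?_, Ne.symm hγx.1, hγx.2, Ne.symm hαx.2,
          fun _ => hαx.1⟩
        rintro rfl
        exact hxA hα
      · obtain ⟨β, hβ, _⟩ := pick (A := B) (B := ∅) (by rw [Finset.card_empty]; omega)
        obtain ⟨γ, hγ, hγx⟩ := pick (A := C) (B := {x, β})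
          (lt_of_le_of_lt Finset.card_le_two (by omega))
        obtain ⟨α, hα, hαx⟩ := pick (A := A') (B := {γ, β})
          (lt_of_le_of_lt Finset.card_le_two (by omega))
        simp only [Finset.mem_insert, Finset.mem_singleton, not_or] at hγx hαx
        refine ⟨α, hA' hα, β, hβ, γ, hγ, x, hx, hαx.2, Ne.symm hγx.2, hγx.1, ?_,
          fun _ => hαx.1⟩
        rintro rfl
        exact hxA hα
    · obtain ⟨A', hA', hA'c⟩ := Finset.exists_subset_card_eq hA
      obtain ⟨x, hx, hxA⟩ := pick (A := B ∪ D) (B := A') (by omega)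
      rw [Finset.mem_union] at hx
      rcases hx with hx | hx
      · obtain ⟨γ, hγ, hγx⟩ := pick (A := C) (B := {x}) (by rw [Finset.card_singleton]; omega)
        obtain ⟨δ, hδ, hδγ⟩ := pick (A := D) (B := {γ}) (by rw [Finset.card_singleton]; omega)
        obtain ⟨α, hα, hαδ⟩ := pick (A := A') (B := {δ}) (by rw [Finset.card_singleton]; omega)
        simp only [Finset.mem_singleton] at hγx hδγ hαδ
        refine ⟨α, hA' hα, x, hx, γ, hγ, δ, hδ, ?_, Ne.symm hγx, Ne.symm hδγ, Ne.symm hαδ,
          fun h => absurd h hpp⟩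
        rintro rfl
        exact hxA hα
      · obtain ⟨γ, hγ, hγx⟩ := pick (A := C) (B := {x}) (by rw [Finset.card_singleton]; omega)
        obtain ⟨β, hβ, hβγ⟩ := pick (A := B) (B := {γ}) (by rw [Finset.card_singleton]; omega)
        obtain ⟨α, hα, hαβ⟩ := pick (A := A') (B := {β}) (by rw [Finset.card_singleton]; omega)
        simp only [Finset.mem_singleton] at hγx hβγ hαβ
        refine ⟨α, hA' hα, β, hβ, γ, hγ, x, hx, hαβ, hβγ, hγx, ?_,
          fun h => absurd h hpp⟩
        rintro rfl
        exact hxA hα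

/-- a 4-cycle without the chord `b d` is impossible -/
lemma CritL.chord {V : Type} [Fintype V] [DecidableEq V] {G : SimpleGraph V} {S : Finset V}
    (h : CritL G S) {a b c d : V} (ha : a ∈ S) (hb : b ∈ S) (hc : c ∈ S) (hd : d ∈ S)
    (hac : a ≠ c) (hbd : b ≠ d)
    (hab : G.Adj a b) (hbc : G.Adj b c) (hcd : G.Adj c d) (hda : G.Adj d a)
    (h4 : ∀ x ∈ ({a, b, c, d} : Finset V), (G.neighborSet x ∩ (S : Set V)).ncard = 4) :
    G.Adj b d := by
  classical
  by_contra hno
  have hsub : ({a, b, c, d} : Finset V) ⊆ S := by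
    intro x hx
    simp only [Finset.mem_insert, Finset.mem_singleton] at hx
    rcases hx with rfl | rfl | rfl | rfl <;> assumption
  obtain ⟨R, hR, hcol⟩ := h.resid {a, b, c, d} ⟨a, by simp⟩ hsub
  have hlow : ∀ x ∈ ({a, b, c, d} : Finset V), ∀ Y : Finset V, Y ⊆ {a, b, c, d} →
      (∀ y ∈ Y, G.Adj x y) → Y.card ≤ (R x).card := by
    intro x hx Y hY hYx
    have h1 := h4 x hx
    have h2 := hR x
    have h3 : ((Y : Set V) ∪ (G.neighborSet x ∩ ((S \ {a, b, c, d} : Finset V) : Set V))).ncard ≤
        (G.neighborSet x ∩ (S : Set V)).ncard := by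
      apply Set.ncard_le_ncard _ (Set.toFinite _)
      rintro u (hu | ⟨hu1, hu2⟩)
      · exact ⟨hYx u hu, hsub (hY hu)⟩
      · exact ⟨hu1, (Finset.mem_sdiff.1 hu2).1⟩
    rw [Set.ncard_union_eq (by
      rw [Set.disjoint_left]
      intro u hu hu'
      exact (Finset.mem_sdiff.1 hu'.2).2 (hY hu)) (Set.toFinite _) (Set.toFinite _),
      Set.ncard_coe_finset] at h3
    omega
  have p1 : ({b, d} : Finset V).card = 2 := Finset.card_pair hbd
  have p2 : ({a, c} : Finset V).card = 2 := Finset.card_pair hac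
  have hA := hlow a (by simp) {b, d} (by intro y; simp only [Finset.mem_insert, Finset.mem_singleton]; tauto) (by
    intro y hy
    simp only [Finset.mem_insert, Finset.mem_singleton] at hy
    rcases hy with rfl | rfl
    · exact hab
    · exact hda.symm)
  have hC := hlow c (by simp) {b, d} (by intro y; simp only [Finset.mem_insert, Finset.mem_singleton]; tauto) (by
    intro y hy
    simp only [Finset.mem_insert, Finset.mem_singleton] at hy
    rcases hy with rfl | rfl
    · exact hbc.symm
    · exact hcd)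
  have hB := hlow b (by simp) {a, c} (by intro y; simp only [Finset.mem_insert, Finset.mem_singleton]; tauto) (by
    intro y hy
    simp only [Finset.mem_insert, Finset.mem_singleton] at hy
    rcases hy with rfl | rfl
    · exact hab.symm
    · exact hbc)
  have hD := hlow d (by simp) {a, c} (by intro y; simp only [Finset.mem_insert, Finset.mem_singleton]; tauto) (by
    intro y hy
    simp only [Finset.mem_insert, Finset.mem_singleton] at hy
    rcases hy with rfl | rfl
    · exact hda
    · exact hcd.symm)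
  have hp : G.Adj a c → 3 ≤ (R a).card ∧ 3 ≤ (R c).card := by
    intro hacA
    constructor
    · have := hlow a (by simp) {b, c, d} (by intro y; simp only [Finset.mem_insert, Finset.mem_singleton]; tauto) (by
        intro y hy
        simp only [Finset.mem_insert, Finset.mem_singleton] at hy
        rcases hy with rfl | rfl | rfl
        · exact hab
        · exact hacA
        · exact hda.symm)
      rwa [Finset.card_eq_three.2 ⟨b, c, d, hbc.ne, hbd, hcd.ne, rfl⟩] at this
    · have := hlow c (by simp) {a, b, d} (by intro y; simp only [Finset.mem_insert, Finset.mem_singleton]; tauto) (by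
        intro y hy
        simp only [Finset.mem_insert, Finset.mem_singleton] at hy
        rcases hy with rfl | rfl | rfl
        · exact hacA.symm
        · exact hbc.symm
        · exact hcd)
      rwa [Finset.card_eq_three.2 ⟨a, b, d, hab.ne, hda.ne', hbd, rfl⟩] at this
  rw [p1] at hA hC
  rw [p2] at hB hD
  obtain ⟨α, hα, β, hβ, γ, hγ, δ, hδ, n1, n2, n3, n4, n5⟩ :=
    lists4 (R a) (R b) (R c) (R d) (G.Adj a c) hA hB hC hD hp
  apply hcol
  have q1 := hab.ne
  have q2 := hbc.ne
  have q3 := hcd.ne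
  have q4 := hda.ne
  set f : V → ℕ := fun x => if x = a then α else if x = b then β else if x = c then γ else δ
    with hf
  have fa : f a = α := by simp [hf]
  have fb : f b = β := by simp [hf, q1.symm]
  have fc : f c = γ := by simp [hf, hac.symm, q2.symm]
  have fd : f d = δ := by simp [hf, q4, hbd.symm, q3.symm]
  clear_value f
  refine ⟨f, ?_, ?_⟩
  · intro x hx
    simp only [Finset.mem_insert, Finset.mem_singleton] at hx
    rcases hx with h1 | h1 | h1 | h1
    · rw [h1, fa]; exact hα
    · rw [h1, fb]; exact hβ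
    · rw [h1, fc]; exact hγ
    · rw [h1, fd]; exact hδ
  · intro u hu v hv huv
    simp only [Finset.mem_insert, Finset.mem_singleton] at hu hv
    have hirr : ∀ x, ¬ G.Adj x x := fun x hx => hx.ne rfl
    rcases hu with h1 | h1 | h1 | h1 <;> rcases hv with h2 | h2 | h2 | h2 <;>
      rw [h1, h2] at huv ⊢ <;>
      first
        | exact absurd huv (hirr _)
        | (rw [fa, fb]; exact n1)
        | (rw [fb, fa]; exact n1.symm)
        | (rw [fb, fc]; exact n2)
        | (rw [fc, fb]; exact n2.symm)
        | (rw [fc, fd]; exact n3)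
        | (rw [fd, fc]; exact n3.symm)
        | (rw [fd, fa]; exact n4)
        | (rw [fa, fd]; exact n4.symm)
        | (rw [fa, fc]; exact n5 huv)
        | (rw [fc, fa]; exact (n5 huv.symm).symm)
        | exact absurd huv hno
        | exact absurd huv.symm hno

theorem CritL.k4 {V : Type} [Fintype V] [DecidableEq V] {G : SimpleGraph V} {S : Finset V}
    (h : CritL G S) {a b c d : V} (ha : a ∈ S) (hb : b ∈ S) (hc : c ∈ S) (hd : d ∈ S)
    (hac : a ≠ c) (hbd : b ≠ d)
    (hab : G.Adj a b) (hbc : G.Adj b c) (hcd : G.Adj c d) (hda : G.Adj d a)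
    (h4 : ∀ x ∈ ({a, b, c, d} : Finset V), (G.neighborSet x ∩ (S : Set V)).ncard = 4) :
    G.Adj a c ∧ G.Adj b d := by
  refine ⟨?_, h.chord ha hb hc hd hac hbd hab hbc hcd hda h4⟩
  refine (h.chord hb hc hd ha hbd hac.symm hbc hcd hda hab ?_).symm
  intro x hx
  apply h4
  simp only [Finset.mem_insert, Finset.mem_singleton] at hx ⊢
  tauto

end Pool.Agent.NSep
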