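import Pool.Agent.NSep.Tri
import Pool.Agent.NSep.Ball15
import Pool.Agent.NSepL.Def
import Pool.Agent.NSepL.K4
import Pool.Agent.NSepL.Five
import Pool.Agent.NSepL.Fam

/-!
Graphs on surfaces whose separating triangles are pairwise far apart, with at most `t` exceptions: deletion to a graph which is colourable from all lists of four colours.
-/

set_option autoImplicit false
set_option linter.unusedSectionVars false

open Finset

namespace Pool.Agent.NSep

variable {V F : Type} [Fintype V] [DecidableEq V] [Fintype F]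

/-- `T` is a triangle of `G` which is the boundary modulo two of a set of faces. -/
def Cellulation.Sep {K : SimpleGraph V} (C : Cellulation K F) (G : SimpleGraph V)
    (T : Finset V) : Prop :=
  G.IsNClique 3 T ∧ ∃ S : Finset F, C.Side T S

/-- the union of the induced subgraphs on the members of `Q` -/
def piecesL (G : SimpleGraph V) (Q : Finset (Finset V)) : SimpleGraph V where
  Adj u v := G.Adj u v ∧ ∃ S ∈ Q, u ∈ S ∧ v ∈ S
  symm := by
    constructor
    rintro u v ⟨h1, S, h2, h3, h4⟩
    exact ⟨h1.symm, S, h2, h4, h3⟩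
  loopless := ⟨fun u h => h.1.ne rfl⟩

variable {K : SimpleGraph V} (C : Cellulation K F)

theorem fam_boundL (hK : K.Connected) (G : SimpleGraph V) (hGK : G ≤ K)
    (E : Finset (Finset V)) (t : ℕ) (hE : E.card ≤ t)
    (hfar : ∀ T T', C.Sep G T → C.Sep G T' → T ∉ E → T' ∉ E → T ≠ T' →
      ∀ u ∈ T, ∀ v ∈ T', ∀ w : G.Walk u v, 15 ≤ w.length)
    (Q : Finset (Finset V)) (hQ : ∀ S ∈ Q, CritL G S)
    (hdis : ∀ S ∈ Q, ∀ S' ∈ Q, S ≠ S' → Disjoint S S') :
    ((∑ S ∈ Q, S.card : ℕ) : ℤ) ≤ max 0 (285 + 210 * (t : ℤ) - 660 * chi K F) := by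
  classical
  by_cases hQe : Q = ∅
  · subst hQe
    simp
  have hk1 : 1 ≤ Q.card := Finset.card_pos.2 (Finset.nonempty_iff_ne_empty.2 hQe)
  set A := Q.biUnion id with hA
  have hAcard : A.card = ∑ S ∈ Q, S.card := by
    rw [hA, Finset.card_biUnion]
    · rfl
    · intro S hS S' hS' hne
      exact hdis S hS S' hS' hne
  rw [← hAcard]
  set H := piecesL G Q with hH
  have hHG : H ≤ G := fun _ _ h => h.1
  have hHK : H ≤ K := hHG.trans hGK
  have huniq : ∀ S ∈ Q, ∀ S' ∈ Q, ∀ v, v ∈ S → v ∈ S' → S = S' := by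
    intro S hS S' hS' v h1 h2
    by_contra hne
    exact (Finset.disjoint_left.1 (hdis S hS S' hS' hne)) h1 h2
  have hnb : ∀ S ∈ Q, ∀ v ∈ S, H.degree v = (G.neighborSet v ∩ (S : Set V)).ncard := by
    intro S hS v hv
    rw [← SimpleGraph.card_neighborFinset_eq_degree, ← Set.ncard_coe_finset]
    congr 1
    ext u
    simp only [SimpleGraph.coe_neighborFinset, SimpleGraph.mem_neighborSet, Set.mem_inter_iff,
      Finset.mem_coe]
    constructor
    · rintro ⟨h1, S', hS', h2, h3⟩
      rw [huniq S hS S' hS' v hv h2]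
      exact ⟨h1, h3⟩
    · rintro ⟨h1, h2⟩
      exact ⟨h1, S, hS, hv, h2⟩
  have hmemA : ∀ v, v ∈ A ↔ ∃ S ∈ Q, v ∈ S := by
    intro v
    rw [hA, Finset.mem_biUnion]
    rfl
  have hdeg : ∀ v ∈ A, 4 ≤ H.degree v := by
    intro v hv
    obtain ⟨S, hS, hvS⟩ := (hmemA v).1 hv
    rw [hnb S hS v hvS]
    exact (hQ S hS).deg hvS
  have hout : ∀ v, v ∉ A → H.degree v = 0 := by
    intro v hv
    rw [← SimpleGraph.card_neighborFinset_eq_degree, Finset.card_eq_zero]
    rw [Finset.eq_empty_iff_forall_notMem]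
    intro u hu
    rw [SimpleGraph.mem_neighborFinset] at hu
    obtain ⟨_, S, hS, h1, _⟩ := hu
    exact hv ((hmemA v).2 ⟨S, hS, h1⟩)
  -- members are nonempty, with at least five points
  have hnonempty : ∀ S ∈ Q, S.Nonempty := by
    intro S hS
    rw [Finset.nonempty_iff_ne_empty]
    rintro rfl
    apply (hQ ∅ hS).1
    intro L hL
    have h1 : ∀ v, ∃ a, a ∈ L v := fun v => Finset.card_pos.1 (by have := hL v; omega)
    choose c hc using h1
    exact ⟨c, hc, fun u hu => absurd hu (Finset.notMem_empty _)⟩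
  have hfive : ∀ S ∈ Q, 5 ≤ S.card := by
    intro S hS
    obtain ⟨v, hv⟩ := hnonempty S hS
    have h1 := (hQ S hS).deg hv
    have h2 : G.neighborSet v ∩ (S : Set V) ⊆ ((S.erase v : Finset V) : Set V) := by
      rintro u ⟨h5, h6⟩
      rw [Finset.mem_coe, Finset.mem_erase]
      exact ⟨(SimpleGraph.Adj.ne h5).symm, h6⟩
    have h3 := Set.ncard_le_ncard h2 (Set.toFinite _)
    rw [Set.ncard_coe_finset, Finset.card_erase_of_mem hv] at h3
    have h4 := Finset.card_pos.2 ⟨v, hv⟩
    omega
  have h5k : 5 * Q.card ≤ A.card := by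
    rw [hAcard, mul_comm, ← smul_eq_mul, ← Finset.sum_const]
    exact Finset.sum_le_sum hfive
  -- components
  have hreach : ∀ S ∈ Q, ∀ u ∈ S, ∀ v, H.Reachable u v → v ∈ S := by
    intro S hS u hu v huv
    obtain ⟨w⟩ := huv
    induction w with
    | nil => exact hu
    | cons h _ ih =>
      apply ih
      obtain ⟨_, S', hS', h1, h2⟩ := h
      rw [huniq S hS S' hS' _ hu h1]
      exact h2
  have hiso : ∀ p, p ∉ A → ∀ q, H.Reachable p q → p = q := by
    intro p hp q hpq
    obtain ⟨w⟩ := hpq
    cases w with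
    | nil => rfl
    | cons h _ =>
      obtain ⟨_, S, hS, h1, _⟩ := h
      exact absurd ((hmemA p).2 ⟨S, hS, h1⟩) hp
  have hD : Fintype.card V + Q.card ≤ Module.finrank (ZMod 2) (dom H) + A.card := by
    have hr : ∀ S : Finset V, ∃ r, S ∈ Q → r ∈ S := by
      intro S
      by_cases hS : S ∈ Q
      · obtain ⟨v, hv⟩ := hnonempty S hS
        exact ⟨v, fun _ => hv⟩
      · obtain ⟨v0⟩ := hK.nonempty
        exact ⟨v0, fun h => absurd h hS⟩
    choose r hr using hr
    have hrA : ∀ S ∈ Q, r S ∈ A := fun S hS => (hmemA _).2 ⟨S, hS, hr S hS⟩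
    have h1 := dom_le H ((univ \ A) ∪ Q.image r) (by
      intro p hp q hq hpq
      rw [Finset.mem_union, Finset.mem_sdiff, Finset.mem_image] at hp hq
      rcases hp with hp | ⟨S, hS, rfl⟩
      · exact hiso p hp.2 q hpq
      · rcases hq with hq | ⟨S', hS', rfl⟩
        · exact (hiso q hq.2 _ hpq.symm).symm
        · have h2 := hreach S hS _ (hr S hS) _ hpq
          rw [huniq S hS S' hS' _ h2 (hr S' hS')])
    have h2 : Disjoint (univ \ A) (Q.image r) := by
      rw [Finset.disjoint_left]
      intro v hv hv'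
      rw [Finset.mem_sdiff] at hv
      rw [Finset.mem_image] at hv'
      obtain ⟨S, hS, rfl⟩ := hv'
      exact hv.2 (hrA S hS)
    have h3 : (Q.image r).card = Q.card := by
      apply Finset.card_image_of_injOn
      intro S hS S' hS' hrr
      have h4 : r S ∈ S' := by
        rw [show r S = r S' from hrr]
        exact hr S' hS'
      exact huniq S hS S' hS' _ (hr S hS) h4
    rw [Finset.card_union_of_disjoint h2, h3, Finset.card_sdiff_of_subset
      (Finset.subset_univ _), Finset.card_univ] at h1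
    have h4 := Finset.card_le_univ A
    omega
  let _ : Fintype (Quot (rel C H)) := Fintype.ofFinite _
  have hchi : chi K F = (Fintype.card V : ℤ) - (K.edgeFinset.card : ℤ) + (Fintype.card F : ℤ) := by
    unfold chi
    rw [← SimpleGraph.coe_edgeFinset, Set.ncard_coe_finset]
  by_cases hn : 2 < Fintype.card (Quot (rel C H))
  · obtain ⟨hb, T, hT1, hT2⟩ := classes C H hn
    obtain ⟨Bad, hBad, hgood⟩ := bad_count C H hK hHK A hdeg hout Q.card hD hb
    set τ := (univ.filter fun q : Quot (rel C H) => (bq C H q).card = 3).card with hτ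
    -- the triangles
    have hτ15 : 15 * τ ≤ 15 * t + 15 * Q.card + A.card := by
      set I := (univ.filter fun q : Quot (rel C H) => (bq C H q).card = 3).image T with hI
      have h1 : I.card = τ := by
        apply Finset.card_image_of_injOn
        intro q hq q' hq' hqq
        rw [Finset.mem_coe, Finset.mem_filter] at hq hq'
        exact hT2 q q' hq.2 hq'.2 hqq
      have hsep : ∀ T' ∈ I, C.Sep G T' ∧ T'.card = 3 ∧
          ∀ u ∈ T', ∀ v ∈ T', u ≠ v → H.Adj u v := by
        intro T' hT'
        rw [hI, Finset.mem_image] at hT'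
        obtain ⟨q, hq, rfl⟩ := hT'
        rw [Finset.mem_filter] at hq
        obtain ⟨a1, a2, a3⟩ := hT1 q hq.2
        refine ⟨⟨?_, _, a3⟩, a1, a2⟩
        rw [SimpleGraph.isNClique_iff]
        exact ⟨fun u hu v hv huv => hHG (a2 u hu v hv huv), a1⟩
      have h2 : I ⊆ E ∪ Q.biUnion (fun S => I.filter (fun T' => T' ⊆ S ∧ T' ∉ E)) := by
        intro T' hT'
        rw [Finset.mem_union]
        by_cases hTE : T' ∈ E
        · exact Or.inl hTE
        · right
          rw [Finset.mem_biUnion]
          obtain ⟨_, a1, a2⟩ := hsep T' hT'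
          obtain ⟨x, y, z, hxy, _, _, hxyz⟩ := Finset.card_eq_three.1 a1
          obtain ⟨_, S, hS, hxS, _⟩ := a2 x (by rw [hxyz]; simp) y (by rw [hxyz]; simp) hxy
          refine ⟨S, hS, ?_⟩
          rw [Finset.mem_filter]
          refine ⟨hT', ?_, hTE⟩
          intro u hu
          by_cases hux : u = x
          · rw [hux]
            exact hxS
          · obtain ⟨_, S', hS', h5, h6⟩ := a2 x (by rw [hxyz]; simp) u hu (Ne.symm hux)
            rw [huniq S hS S' hS' x hxS h5]
            exact h6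
      have h3 : ∀ S ∈ Q, 15 * (I.filter (fun T' => T' ⊆ S ∧ T' ∉ E)).card ≤ 15 + S.card := by
        intro S hS
        apply ball15 G S (hQ S hS).reach (fun v hv => (hQ S hS).deg hv)
        · intro T' hT'
          rw [Finset.mem_filter] at hT'
          exact ⟨hT'.2.1, (hsep T' hT'.1).2.1⟩
        · intro T1 hT1' T2 hT2' hne u hu v hv w
          rw [Finset.mem_filter] at hT1' hT2'
          exact hfar T1 T2 (hsep T1 hT1'.1).1 (hsep T2 hT2'.1).1 hT1'.2.2 hT2'.2.2 hne u hu v hv w
      have h4 := Finset.card_le_card h2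
      have h5 := Finset.card_union_le E
        (Q.biUnion (fun S => I.filter (fun T' => T' ⊆ S ∧ T' ∉ E)))
      have h6 : (Q.biUnion (fun S => I.filter (fun T' => T' ⊆ S ∧ T' ∉ E))).card ≤
          ∑ S ∈ Q, (I.filter (fun T' => T' ⊆ S ∧ T' ∉ E)).card := Finset.card_biUnion_le
      have h7 : 15 * ∑ S ∈ Q, (I.filter (fun T' => T' ⊆ S ∧ T' ∉ E)).card ≤
          15 * Q.card + A.card := by
        rw [Finset.mul_sum, hAcard,
          show 15 * Q.card = ∑ _S ∈ Q, 15 by rw [Finset.sum_const, smul_eq_mul, mul_comm],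
          ← Finset.sum_add_distrib]
        exact Finset.sum_le_sum h3
      omega
    -- the vertices which are not bad lie in members with five points
    have hA5 : A ⊆ Bad ∪ (Q.filter (fun S => S.card = 5)).biUnion id := by
      intro v hv
      rw [Finset.mem_union]
      by_cases hvB : v ∈ Bad
      · exact Or.inl hvB
      · right
        rw [Finset.mem_biUnion]
        obtain ⟨S, hS, hvS⟩ := (hmemA v).1 hv
        obtain ⟨g1, g2⟩ := hgood v hv hvB
        have hcr := hQ S hS
        have hinS : ∀ a b, a ∈ S → H.Adj a b → b ∈ S := fun a b ha hab =>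
          hreach S hS a ha b hab.reachable
        refine ⟨S, ?_, hvS⟩
        rw [Finset.mem_filter]
        refine ⟨hS, ?_⟩
        apply hcr.five hvS (by rw [← hnb S hS v hvS]; exact g1)
        intro w hw hvw
        have hHvw : H.Adj v w := ⟨hvw, S, hS, hvS, hw⟩
        obtain ⟨d1, w', x, n1, n2, b1, b2, b3, d2, d3⟩ := g2 w hHvw
        have hw' := hinS v w' hvS b1
        have hx := hinS w x hw b2
        refine ⟨by rw [← hnb S hS w hw]; exact d1, x, hx, w', hw', ?_⟩
        have hk4 := hcr.k4 hvS hw hx hw' n2.symm n1.symm hvw b2.1 b3.1.symm b1.1.symm (by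
          intro y hy
          simp only [Finset.mem_insert, Finset.mem_singleton] at hy
          rcases hy with rfl | rfl | rfl | rfl
          · rw [← hnb S hS _ hvS]; exact g1
          · rw [← hnb S hS _ hw]; exact d1
          · rw [← hnb S hS _ hx]; exact d3
          · rw [← hnb S hS _ hw']; exact d2)
        exact ⟨hk4.1, b1.1, b2.1, hk4.2, b3.1.symm⟩
    have h1 := Finset.card_le_card hA5
    have h2 := Finset.card_union_le Bad ((Q.filter (fun S => S.card = 5)).biUnion id)
    have h3 : ((Q.filter (fun S => S.card = 5)).biUnion id).card ≤ Q.card * 5 := by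
      refine (Finset.card_biUnion_le_card_mul _ _ 5 ?_).trans
        (Nat.mul_le_mul_right 5 (Finset.card_filter_le _ _))
      intro S hS
      rw [Finset.mem_filter] at hS
      exact hS.2.le
    omega
  · have e1 := euler C hK H hHK
    rw [Nat.card_eq_fintype_card] at e1
    have e4 : 4 * A.card ≤ 2 * H.edgeFinset.card := by
      rw [← SimpleGraph.sum_degrees_eq_twice_card_edges,
        show 4 * A.card = ∑ _v ∈ A, 4 by rw [Finset.sum_const, smul_eq_mul, mul_comm]]
      exact (Finset.sum_le_sum hdeg).trans (Finset.sum_le_sum_of_subset (Finset.subset_univ _))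
    omega

/-- **Far apart separating triangles.** -/
theorem farL (hK : K.Connected) (G : SimpleGraph V) (hGK : G ≤ K)
    (E : Finset (Finset V)) (t : ℕ) (hE : E.card ≤ t)
    (hfar : ∀ T T', C.Sep G T → C.Sep G T' → T ∉ E → T' ∉ E → T ≠ T' →
      ∀ u ∈ T, ∀ v ∈ T', ∀ w : G.Walk u v, 15 ≤ w.length) :
    ∃ X : Finset V, (X.card : ℤ) ≤ max 0 (285 + 210 * (t : ℤ) - 660 * chi K F) ∧
      Choos G (univ \ X) := by
  obtain ⟨X, hX, h⟩ := familyL G (max 0 (285 + 210 * (t : ℤ) - 660 * chi K F)).toNat
    (fun Q hQ hdis => by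
      have := fam_boundL C hK G hGK E t hE hfar Q hQ hdis
      omega)
  exact ⟨X, by omega, h⟩

end Pool.Agent.NSep
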